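import Mathlib
import Pool.Agent.Lib.MP_7682a8_an.KB.Iface

/-! Project KB, module BDR: the identity for the multiplier. -/

set_option autoImplicit false

open Metric Set MeasureTheory Filter
open scoped Topology

namespace Pool.Agent.Lib.MP_7682a8_an.KB.H84

open Pool.Agent.Lib.MP_7682a8_an.KB

/-! ## Calculus with `wd` -/

lemma wd_apply (p s v : ℂ) : wd p s v = p * v + s * starRingEnd ℂ v := by
  simp [wd]

lemma wd_mul {f g : ℂ → ℂ} {p s p' s' z : ℂ} (hf : HasFDerivAt f (wd p s) z)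
    (hg : HasFDerivAt g (wd p' s') z) :
    HasFDerivAt (fun z => f z * g z) (wd (p * g z + f z * p') (s * g z + f z * s')) z := by
  refine (hf.mul hg).congr_fderiv (ContinuousLinearMap.ext fun v => ?_)
  simp only [ContinuousLinearMap.add_apply, ContinuousLinearMap.smul_apply, smul_eq_mul, wd_apply]
  ring

lemma wd_add {f g : ℂ → ℂ} {p s p' s' z : ℂ} (hf : HasFDerivAt f (wd p s) z)
    (hg : HasFDerivAt g (wd p' s') z) :
    HasFDerivAt (fun z => f z + g z) (wd (p + p') (s + s')) z := by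
  refine (hf.add hg).congr_fderiv (ContinuousLinearMap.ext fun v => ?_)
  simp only [ContinuousLinearMap.add_apply, wd_apply]
  ring

lemma wd_const_mul {f : ℂ → ℂ} {p s z : ℂ} (c : ℂ) (hf : HasFDerivAt f (wd p s) z) :
    HasFDerivAt (fun z => c * f z) (wd (c * p) (c * s)) z := by
  refine (hf.const_mul c).congr_fderiv (ContinuousLinearMap.ext fun v => ?_)
  simp only [ContinuousLinearMap.smul_apply, smul_eq_mul, wd_apply]
  ring

lemma wd_const_add {f : ℂ → ℂ} {p s z : ℂ} (c : ℂ) (hf : HasFDerivAt f (wd p s) z) :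
    HasFDerivAt (fun z => c + f z) (wd p s) z := hf.const_add c

lemma wd_conj {f : ℂ → ℂ} {p s z : ℂ} (hf : HasFDerivAt f (wd p s) z) :
    HasFDerivAt (fun z => starRingEnd ℂ (f z)) (wd (starRingEnd ℂ s) (starRingEnd ℂ p)) z := by
  have h := (Complex.conjCLE : ℂ ≃L[ℝ] ℂ).hasFDerivAt.comp z hf
  refine h.congr_fderiv (ContinuousLinearMap.ext fun v => ?_)
  simp only [ContinuousLinearMap.comp_apply, ContinuousLinearEquiv.coe_coe, wd_apply,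
    Complex.conjCLE_apply, map_add, map_mul, Complex.conj_conj]
  ring

lemma wd_inv {f : ℂ → ℂ} {p s z : ℂ} (hf : HasFDerivAt f (wd p s) z) (h0 : f z ≠ 0) :
    HasFDerivAt (fun z => (f z)⁻¹) (wd (-p / (f z) ^ 2) (-s / (f z) ^ 2)) z := by
  have h := (hasDerivAt_inv h0).comp_hasFDerivAt z hf
  refine h.congr_fderiv (ContinuousLinearMap.ext fun v => ?_)
  simp only [ContinuousLinearMap.smul_apply, smul_eq_mul, wd_apply]
  field_simp
  ring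

lemma wd_of_hasDerivAt {f : ℂ → ℂ} {p z : ℂ} (hf : HasDerivAt f p z) :
    HasFDerivAt f (wd p 0) z := by
  refine (hf.hasFDerivAt.restrictScalars ℝ).congr_fderiv (ContinuousLinearMap.ext fun v => ?_)
  simp [wd_apply, mul_comm]

lemma wd_id (z : ℂ) : HasFDerivAt (fun z : ℂ => z) (wd 1 0) z := wd_of_hasDerivAt (hasDerivAt_id z)

/-- `∂ |z|² = z̄`, `∂̄ |z|² = z` -/
lemma wd_normSq (z : ℂ) :
    HasFDerivAt (fun z : ℂ => (((‖z‖ ^ 2 : ℝ)) : ℂ)) (wd (starRingEnd ℂ z) z) z := by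
  have h1 : (fun z : ℂ => (((‖z‖ ^ 2 : ℝ)) : ℂ)) = fun z => z * starRingEnd ℂ z := by
    funext z
    rw [Complex.mul_conj, Complex.normSq_eq_norm_sq]
  rw [h1]
  have h := wd_mul (wd_id z) (wd_conj (wd_id z))
  simpa using h

/-- `∂ log |z|² = 1/z` -/
lemma wd_log {z : ℂ} (hz : z ≠ 0) :
    HasFDerivAt (fun z : ℂ => ((Real.log (‖z‖ ^ 2) : ℝ) : ℂ)) (wd (1 / z) (1 / starRingEnd ℂ z)) z := by
  have h1 := (hasStrictFDerivAt_norm_sq z).hasFDerivAt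
  have hn : ‖z‖ ^ 2 ≠ 0 := by positivity
  have h2 := h1.log hn
  have h3 := Complex.ofRealCLM.hasFDerivAt.comp z h2
  refine h3.congr_fderiv (ContinuousLinearMap.ext fun v => ?_)
  have hc : starRingEnd ℂ z ≠ 0 := by simpa using hz
  have e1 : (((‖z‖ ^ 2 : ℝ)) : ℂ) = z * starRingEnd ℂ z := by
    rw [Complex.mul_conj, Complex.normSq_eq_norm_sq]
  have e2 : (((starRingEnd ℂ z * v).re : ℝ) : ℂ) =
      (starRingEnd ℂ z * v + z * starRingEnd ℂ v) / 2 := by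
    rw [Complex.re_eq_add_conj, map_mul, Complex.conj_conj]
  simp only [ContinuousLinearMap.comp_apply, ContinuousLinearMap.smul_apply, wd_apply,
    Complex.ofRealCLM_apply, innerSL_apply_apply, smul_eq_mul, nsmul_eq_mul]
  rw [real_inner_comm, Complex.inner]
  push_cast
  push_cast at e1
  rw [e1]
  have e3 : (((z * starRingEnd ℂ v).re : ℝ) : ℂ) =
      (starRingEnd ℂ z * v + z * starRingEnd ℂ v) / 2 := by
    rw [Complex.re_eq_add_conj, map_mul, Complex.conj_conj]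
    ring
  rw [e3]
  field_simp

/-! ## The multiplier as a function of `z` -/

lemma YY_eq {R r : ℝ} (hR : 0 < R) (hr : 0 < r) (q : ℂ) :
    YY R r q = (1 / 2 + (-(1 / (2 * (R : ℂ) ^ 2))) * ((r ^ 2 : ℝ) : ℂ)) * q⁻¹ +
      (-((4 * Real.log R : ℝ) : ℂ) + 2 * ((Real.log (r ^ 2) : ℝ) : ℂ)) +
      (-(5 / 2) + (5 / 2 * (R : ℂ) ^ 2) * (((r ^ 2 : ℝ) : ℂ))⁻¹) * q := by
  have hR' : (R : ℂ) ≠ 0 := by exact_mod_cast hR.ne'
  have hr' : (r : ℂ) ≠ 0 := by exact_mod_cast hr.ne'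
  rw [YY, Real.log_div hR.ne' hr.ne', Real.log_pow]
  push_cast
  field_simp
  ring

lemma YY_self {R : ℝ} (hR : 0 < R) (q : ℂ) : YY R R q = 0 := by
  rw [YY, div_self (by positivity), div_self hR.ne', Real.log_one]
  simp

/-- the derivative of `z ↦ Y(|z|, q z)` -/
lemma YY_deriv {q : ℂ → ℂ} {a b z : ℂ} {R : ℝ} (hR : 0 < R) (hz : z ≠ 0) (hq : q z ≠ 0)
    (h : HasFDerivAt q (wd (q z * a / z) (q z * b / starRingEnd ℂ z)) z) :
    HasFDerivAt (fun z => YY R ‖z‖ (q z))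
      (wd (-(((‖z‖ ^ 2 / R ^ 2 : ℝ)) : ℂ) / (2 * z) / q z -
          (((1 - ‖z‖ ^ 2 / R ^ 2) / 2 : ℝ) : ℂ) * a / (z * q z) + 2 / z -
          ((5 / 2 * (R ^ 2 / ‖z‖ ^ 2) : ℝ) : ℂ) / z * q z +
          ((5 / 2 * (R ^ 2 / ‖z‖ ^ 2 - 1) : ℝ) : ℂ) * (q z * a / z))
        (-(((‖z‖ ^ 2 / R ^ 2 : ℝ)) : ℂ) / (2 * starRingEnd ℂ z) / q z -
          (((1 - ‖z‖ ^ 2 / R ^ 2) / 2 : ℝ) : ℂ) * b / (starRingEnd ℂ z * q z) +
          2 / starRingEnd ℂ z -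
          ((5 / 2 * (R ^ 2 / ‖z‖ ^ 2) : ℝ) : ℂ) / starRingEnd ℂ z * q z +
          ((5 / 2 * (R ^ 2 / ‖z‖ ^ 2 - 1) : ℝ) : ℂ) * (q z * b / starRingEnd ℂ z))) z := by
  have hR' : (R : ℂ) ≠ 0 := by exact_mod_cast hR.ne'
  have hc : starRingEnd ℂ z ≠ 0 := by simpa using hz
  have hn : 0 < ‖z‖ := norm_pos_iff.2 hz
  have hn2 : (((‖z‖ ^ 2 : ℝ)) : ℂ) ≠ 0 := by
    have : (0:ℝ) < ‖z‖ ^ 2 := by positivity
    exact_mod_cast this.ne'
  have e1 : (((‖z‖ ^ 2 : ℝ)) : ℂ) = z * starRingEnd ℂ z := by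
    rw [Complex.mul_conj, Complex.normSq_eq_norm_sq]
  have hev : (fun z => YY R ‖z‖ (q z)) =ᶠ[𝓝 z] fun z =>
      (1 / 2 + (-(1 / (2 * (R : ℂ) ^ 2))) * ((‖z‖ ^ 2 : ℝ) : ℂ)) * (q z)⁻¹ +
      (-((4 * Real.log R : ℝ) : ℂ) + 2 * ((Real.log (‖z‖ ^ 2) : ℝ) : ℂ)) +
      (-(5 / 2) + (5 / 2 * (R : ℂ) ^ 2) * (((‖z‖ ^ 2 : ℝ) : ℂ))⁻¹) * q z := by
    filter_upwards [isOpen_ne.mem_nhds hz] with w hw
    exact YY_eq hR (norm_pos_iff.2 hw) _
  have hA := wd_const_add (1 / 2) (wd_const_mul (-(1 / (2 * (R : ℂ) ^ 2))) (wd_normSq z))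
  have hB := wd_const_add (-((4 * Real.log R : ℝ) : ℂ)) (wd_const_mul 2 (wd_log hz))
  have hC := wd_const_add (-(5 / 2)) (wd_const_mul (5 / 2 * (R : ℂ) ^ 2) (wd_inv (wd_normSq z) hn2))
  have hD := wd_add (wd_add (wd_mul hA (wd_inv h hq)) hB) (wd_mul hC h)
  refine (hD.congr_of_eventuallyEq hev).congr_fderiv (ContinuousLinearMap.ext fun v => ?_)
  rw [wd_apply, wd_apply]
  push_cast
  push_cast at e1
  rw [e1]
  congr 1
  · congr 1
    field_simp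
    ring
  · congr 1
    field_simp
    ring

/-- the algebra of the identity -/
lemma alg_id {n a b G s δ q : ℂ} (hs : s ≠ 0) (hG1 : G - 1 ≠ 0) (hG2 : G + 1 ≠ 0)
    (hn : n = b * (δ * (G ^ 2 - 1) * G)) (hq : q = (G - 1) / (G + 1)) :
    n * (-s / q - (1 - s) * a / q + 4 - 5 * s⁻¹ * q + 5 * (s⁻¹ - 1) * q * a) =
      4 * δ * (b * (((G - 1) ^ 2 - (G - 1) ^ 3) / 2 - 1 + 2 * (a - 1) *
        (G / 4 * (-((1 - s) / 2) * (G + 1) ^ 2 + (5 / 2 * (1 / s - 1)) * (G - 1) ^ 2)))) := by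
  rw [hn, hq]
  field_simp
  ring

theorem bdr (hQ : QdeStmt) (hCon : ConStmt) (hN : NlgStmt) : BdrStmt := by
  intro h g δ ξ ε R hOm hBr hε hεR hR1
  have hR : 0 < R := hε.trans hεR
  obtain ⟨hca, hcb, hc1, hc2, -, -⟩ := hCon h g δ ξ hOm hBr
  have hδ : (δ : ℂ) ≠ 0 := by exact_mod_cast hOm.pos.ne'
  have hsub : ∀ z : ℂ, ε ≤ ‖z‖ → ‖z‖ ≤ R → z ∈ ball (0 : ℂ) 1 ∧ z ≠ 0 := by
    intro z h1 h2
    refine ⟨by rw [mem_ball_zero_iff]; linarith, ?_⟩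
    rw [← norm_pos_iff]; linarith
  -- derivatives of g
  have hg1 : ∀ z ∈ ball (0 : ℂ) 1, HasDerivAt (deriv g) (deriv (deriv g) z) z := by
    intro z hz
    have h1 : DifferentiableOn ℂ (deriv g) (ball (0 : ℂ) 1) := hOm.dg.deriv isOpen_ball
    exact (h1.differentiableAt (isOpen_ball.mem_nhds hz)).hasDerivAt
  have hgc : ContinuousOn (deriv g) (ball (0 : ℂ) 1) :=
    (hOm.dg.deriv isOpen_ball).continuousOn
  have hgc2 : ContinuousOn (deriv (deriv g)) (ball (0 : ℂ) 1) :=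
    ((hOm.dg.deriv isOpen_ball).deriv isOpen_ball).continuousOn
  obtain ⟨n, hn⟩ : ∃ n : ℂ → ℂ, n = fun z => starRingEnd ℂ (z * deriv g z) := ⟨_, rfl⟩
  have hnd : ∀ z ∈ ball (0 : ℂ) 1, HasFDerivAt n
      (wd 0 (starRingEnd ℂ (deriv g z + z * deriv (deriv g) z))) z := by
    intro z hz
    have h1 := wd_of_hasDerivAt ((hasDerivAt_id z).mul (hg1 z hz))
    have h2 := wd_conj h1
    rw [hn]
    refine h2.congr_fderiv (ContinuousLinearMap.ext fun v => ?_)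
    simp [wd_apply]
  obtain ⟨A, hA⟩ : ∃ A : ℂ → ℂ, A = aa h δ ξ := ⟨_, rfl⟩
  obtain ⟨B, hB⟩ : ∃ B : ℂ → ℂ, B = bb g δ ξ := ⟨_, rfl⟩
  obtain ⟨q, hq⟩ : ∃ q : ℂ → ℂ, q = qq ξ := ⟨_, rfl⟩
  rw [← hA] at hca
  rw [← hB] at hcb
  have hqd : ∀ z ∈ ball (0 : ℂ) 1, z ≠ 0 → HasFDerivAt q
      (wd (q z * A z / z) (q z * B z / starRingEnd ℂ z)) z := by
    intro z hz hz0
    rw [hq, hA, hB]
    exact hQ h g δ ξ hOm hBr z hz hz0
  have hq0 : ∀ z ∈ ball (0 : ℂ) 1, z ≠ 0 → q z ≠ 0 := by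
    intro z hz hz0
    rw [hq]
    exact (hc2 z hz hz0).2
  obtain ⟨Yz, hYz⟩ : ∃ Yz : ℂ → ℂ, Yz = fun z => -(((‖z‖ ^ 2 / R ^ 2 : ℝ)) : ℂ) / (2 * z) / q z -
          (((1 - ‖z‖ ^ 2 / R ^ 2) / 2 : ℝ) : ℂ) * A z / (z * q z) + 2 / z -
          ((5 / 2 * (R ^ 2 / ‖z‖ ^ 2) : ℝ) : ℂ) / z * q z +
          ((5 / 2 * (R ^ 2 / ‖z‖ ^ 2 - 1) : ℝ) : ℂ) * (q z * A z / z) := ⟨_, rfl⟩
  obtain ⟨Yb, hYb⟩ : ∃ Yb : ℂ → ℂ, Yb = fun z =>
        -(((‖z‖ ^ 2 / R ^ 2 : ℝ)) : ℂ) / (2 * starRingEnd ℂ z) / q z -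
          (((1 - ‖z‖ ^ 2 / R ^ 2) / 2 : ℝ) : ℂ) * B z / (starRingEnd ℂ z * q z) +
          2 / starRingEnd ℂ z -
          ((5 / 2 * (R ^ 2 / ‖z‖ ^ 2) : ℝ) : ℂ) / starRingEnd ℂ z * q z +
          ((5 / 2 * (R ^ 2 / ‖z‖ ^ 2 - 1) : ℝ) : ℂ) * (q z * B z / starRingEnd ℂ z) := ⟨_, rfl⟩
  have hYd : ∀ z ∈ ball (0 : ℂ) 1, z ≠ 0 →
      HasFDerivAt (fun z => YY R ‖z‖ (q z)) (wd (Yz z) (Yb z)) z := by
    intro z hz hz0
    rw [hYz, hYb]
    exact YY_deriv hR hz0 (hq0 z hz hz0) (hqd z hz hz0)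
  obtain ⟨Φ, hΦ⟩ : ∃ Φ : ℂ → ℂ, Φ = fun z => n z * YY R ‖z‖ (q z) := ⟨_, rfl⟩
  obtain ⟨P, hP⟩ : ∃ P : ℂ → ℂ, P = fun z => n z * Yz z := ⟨_, rfl⟩
  obtain ⟨S, hS⟩ : ∃ S : ℂ → ℂ, S = fun z =>
      starRingEnd ℂ (deriv g z + z * deriv (deriv g) z) * YY R ‖z‖ (q z) + n z * Yb z := ⟨_, rfl⟩
  have hΦd : ∀ z : ℂ, ε ≤ ‖z‖ → ‖z‖ ≤ R → HasFDerivAt Φ (wd (P z) (S z)) z := by
    intro z h1 h2
    obtain ⟨hz, hz0⟩ := hsub z h1 h2
    have h3 := wd_mul (hnd z hz) (hYd z hz hz0)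
    rw [hΦ, hP, hS]
    refine h3.congr_fderiv (ContinuousLinearMap.ext fun v => ?_)
    simp only [wd_apply]
    ring
  -- continuity
  obtain ⟨K, hK⟩ : ∃ K : Set ℂ, K = {z | ε ≤ ‖z‖ ∧ ‖z‖ ≤ R} := ⟨_, rfl⟩
  have hKs : ∀ z ∈ K, z ∈ ball (0 : ℂ) 1 ∧ z ≠ 0 := by
    intro z hz
    rw [hK] at hz
    exact hsub z hz.1 hz.2
  have hKs2 : K ⊆ ball (0 : ℂ) 1 \ {0} := fun z hz => ⟨(hKs z hz).1, (hKs z hz).2⟩
  have hKs1 : K ⊆ ball (0 : ℂ) 1 := fun z hz => (hKs z hz).1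
  have cA : ContinuousOn A K := hca.mono hKs2
  have cB : ContinuousOn B K := hcb.mono hKs2
  have cq : ContinuousOn q K := fun z hz =>
    (hqd z (hKs z hz).1 (hKs z hz).2).continuousAt.continuousWithinAt
  have cY : ContinuousOn (fun z => YY R ‖z‖ (q z)) K := fun z hz =>
    (hYd z (hKs z hz).1 (hKs z hz).2).continuousAt.continuousWithinAt
  have cg : ContinuousOn (deriv g) K := hgc.mono hKs1
  have cg2 : ContinuousOn (deriv (deriv g)) K := hgc2.mono hKs1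
  have cn : ContinuousOn n K := by
    rw [hn]
    exact Complex.continuous_conj.comp_continuousOn (continuousOn_id.mul cg)
  have cid : ContinuousOn (fun z : ℂ => z) K := continuousOn_id
  have cconj : ContinuousOn (fun z : ℂ => starRingEnd ℂ z) K := Complex.continuous_conj.continuousOn
  have c1 : ContinuousOn (fun z : ℂ => (((‖z‖ ^ 2 / R ^ 2 : ℝ)) : ℂ)) K := by fun_prop
  have c2 : ContinuousOn (fun z : ℂ => (((1 - ‖z‖ ^ 2 / R ^ 2) / 2 : ℝ) : ℂ)) K := by fun_prop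
  have c0 : ContinuousOn (fun z : ℂ => R ^ 2 / ‖z‖ ^ 2) K := by
    apply ContinuousOn.div continuousOn_const (by fun_prop)
    intro z hz
    have := norm_pos_iff.2 (hKs z hz).2
    positivity
  have c3 : ContinuousOn (fun z : ℂ => ((5 / 2 * (R ^ 2 / ‖z‖ ^ 2) : ℝ) : ℂ)) K :=
    Complex.continuous_ofReal.comp_continuousOn (continuousOn_const.mul c0)
  have c4 : ContinuousOn (fun z : ℂ => ((5 / 2 * (R ^ 2 / ‖z‖ ^ 2 - 1) : ℝ) : ℂ)) K :=
    Complex.continuous_ofReal.comp_continuousOn (continuousOn_const.mul (c0.sub continuousOn_const))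
  have hz0 : ∀ z ∈ K, z ≠ 0 := fun z hz => (hKs z hz).2
  have hcz0 : ∀ z ∈ K, starRingEnd ℂ z ≠ 0 := fun z hz => by simpa using (hKs z hz).2
  have hqz0 : ∀ z ∈ K, q z ≠ 0 := fun z hz => hq0 z (hKs z hz).1 (hKs z hz).2
  have cYz : ContinuousOn Yz K := by
    rw [hYz]
    refine ContinuousOn.add (ContinuousOn.sub (ContinuousOn.add (ContinuousOn.sub ?_ ?_) ?_) ?_) ?_
    · exact ((c1.neg).div (continuousOn_const.mul cid) (fun z hz => mul_ne_zero two_ne_zero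
        (hz0 z hz))).div cq hqz0
    · exact (c2.mul cA).div (cid.mul cq) (fun z hz => mul_ne_zero (hz0 z hz) (hqz0 z hz))
    · exact continuousOn_const.div cid hz0
    · exact (c3.div cid hz0).mul cq
    · exact c4.mul ((cq.mul cA).div cid hz0)
  have cYb : ContinuousOn Yb K := by
    rw [hYb]
    refine ContinuousOn.add (ContinuousOn.sub (ContinuousOn.add (ContinuousOn.sub ?_ ?_) ?_) ?_) ?_
    · exact ((c1.neg).div (continuousOn_const.mul cconj) (fun z hz => mul_ne_zero two_ne_zero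
        (hcz0 z hz))).div cq hqz0
    · exact (c2.mul cB).div (cconj.mul cq) (fun z hz => mul_ne_zero (hcz0 z hz) (hqz0 z hz))
    · exact continuousOn_const.div cconj hcz0
    · exact (c3.div cconj hcz0).mul cq
    · exact c4.mul ((cq.mul cB).div cconj hcz0)
  have cP : ContinuousOn P {z | ε ≤ ‖z‖ ∧ ‖z‖ ≤ R} := by
    rw [← hK, hP]
    exact cn.mul cYz
  have cS : ContinuousOn S {z | ε ≤ ‖z‖ ∧ ‖z‖ ≤ R} := by
    rw [← hK, hS]
    exact ((Complex.continuous_conj.comp_continuousOn (cg.add (cid.mul cg2))).mul cY).add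
      (cn.mul cYb)
  have hmain := hN Φ P S ε R hε hεR hΦd cP cS
  -- the integrand
  have hint : ∀ z ∈ K, 2 * z * P z = 4 * (δ : ℂ) * (B z * (E0 (Complex.exp (ξ z)) - 1 +
        2 * (A z - 1) * MM (‖z‖ ^ 2 / R ^ 2) (Complex.exp (ξ z)))) := by
    intro z hz
    obtain ⟨hzb, hzz⟩ := hKs z hz
    have hnz : 0 < ‖z‖ := norm_pos_iff.2 hzz
    have hG2 : Complex.exp (ξ z) + 1 ≠ 0 := (hc1 z hzb).2
    have hG : Complex.exp (2 * ξ z) - 1 ≠ 0 := (hc2 z hzb hzz).1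
    have hsq : Complex.exp (2 * ξ z) = Complex.exp (ξ z) ^ 2 := by
      rw [← Complex.exp_nat_mul]
      norm_num
    have hGe : Complex.exp (ξ z) ≠ 0 := Complex.exp_ne_zero _
    have hG1 : Complex.exp (ξ z) - 1 ≠ 0 := by
      intro h0
      apply hG
      rw [hsq, sub_eq_zero.1 h0]
      ring
    have hnz' : n z = B z * ((δ : ℂ) * (Complex.exp (ξ z) ^ 2 - 1) * Complex.exp (ξ z)) := by
      rw [hn, hB]
      simp only [bb]
      rw [← hsq]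
      have hden : (δ : ℂ) * (Complex.exp (2 * ξ z) - 1) * Complex.exp (ξ z) ≠ 0 :=
        mul_ne_zero (mul_ne_zero hδ hG) hGe
      rw [div_mul_cancel₀ _ hden]
    have hqz : q z = (Complex.exp (ξ z) - 1) / (Complex.exp (ξ z) + 1) := by
      rw [hq]; rfl
    have hs0 : (((‖z‖ ^ 2 / R ^ 2 : ℝ)) : ℂ) ≠ 0 := by
      have : (0:ℝ) < ‖z‖ ^ 2 / R ^ 2 := by positivity
      exact_mod_cast this.ne'
    have key := alg_id (a := A z) hs0 hG1 hG2 hnz' hqz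
    have hq' := hqz0 z hz
    have hRC : (R : ℂ) ≠ 0 := by exact_mod_cast hR.ne'
    have hNC : (‖z‖ : ℂ) ≠ 0 := by exact_mod_cast hnz.ne'
    have e1 : 2 * z * P z = n z * (-(((‖z‖ ^ 2 / R ^ 2 : ℝ)) : ℂ) / q z -
        (1 - (((‖z‖ ^ 2 / R ^ 2 : ℝ)) : ℂ)) * A z / q z + 4 -
        5 * ((((‖z‖ ^ 2 / R ^ 2 : ℝ)) : ℂ))⁻¹ * q z +
        5 * (((((‖z‖ ^ 2 / R ^ 2 : ℝ)) : ℂ))⁻¹ - 1) * q z * A z) := by
      rw [hP]
      simp only
      rw [hYz]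
      simp only
      push_cast
      field_simp
      ring
    rw [e1, key]
    simp only [E0, MM]
    push_cast
    ring
  have hnorm : ∀ r θ : ℝ, 0 ≤ r → ‖circleMap 0 r θ‖ = r := by
    intro r θ hr
    rw [norm_circleMap_zero, abs_of_nonneg hr]
  have hL : ∫ r in ε..R, (∫ θ in (0 : ℝ)..(2 * Real.pi),
      2 * circleMap 0 r θ * P (circleMap 0 r θ)) / r =
      4 * (δ : ℂ) * ∫ r in ε..R, (∫ θ in (0 : ℝ)..(2 * Real.pi),
      bb g δ ξ (circleMap 0 r θ) * (E0 (Complex.exp (ξ (circleMap 0 r θ))) - 1 +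
        2 * (aa h δ ξ (circleMap 0 r θ) - 1) *
          MM (r ^ 2 / R ^ 2) (Complex.exp (ξ (circleMap 0 r θ))))) / r := by
    rw [← intervalIntegral.integral_const_mul]
    apply intervalIntegral.integral_congr
    intro r hr
    rw [uIcc_of_le hεR.le] at hr
    have hr0 : 0 ≤ r := by linarith [hr.1]
    simp only
    rw [← mul_div_assoc, ← intervalIntegral.integral_const_mul]
    congr 1
    apply intervalIntegral.integral_congr
    intro θ _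
    have hz : circleMap 0 r θ ∈ K := by
      rw [hK]
      constructor
      · rw [hnorm r θ hr0]; exact hr.1
      · rw [hnorm r θ hr0]; exact hr.2
    have h1 := hint _ hz
    rw [hnorm r θ hr0, hA, hB] at h1
    simp only
    rw [h1]
  have hRR : ∫ θ in (0 : ℝ)..(2 * Real.pi), (Φ (circleMap 0 R θ) - Φ (circleMap 0 ε θ)) =
      -∫ θ in (0 : ℝ)..(2 * Real.pi),
      starRingEnd ℂ (circleMap 0 ε θ * deriv g (circleMap 0 ε θ)) *
        YY R ε (qq ξ (circleMap 0 ε θ)) := by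
    rw [← intervalIntegral.integral_neg]
    apply intervalIntegral.integral_congr
    intro θ _
    simp only
    rw [hΦ]
    simp only
    rw [hnorm R θ hR.le, hnorm ε θ hε.le, YY_self hR, mul_zero, zero_sub, hn, hq]
  rw [hL, hRR] at hmain
  have h4 : (4 * (δ : ℂ)) ≠ 0 := mul_ne_zero (by norm_num) hδ
  apply mul_left_cancel₀ h4
  rw [hmain]
  field_simp

end Pool.Agent.Lib.MP_7682a8_an.KB.H84
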